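import Mathlib
set_option autoImplicit false

namespace Y864.Rec

/-- largest part of `M` coprime to `a`, crude version -/
lemma exists_cop_part (M a : ℕ) (hM : M ≠ 0) :
    ∃ M2 : ℕ, Nat.Coprime M2 a ∧ 0 < M2 ∧ ∀ m : ℕ, Nat.Coprime m a → Nat.gcd M m ∣ M2 := by
  refine ⟨∏ d ∈ M.divisors.filter (fun d => Nat.Coprime d a), d, ?_, ?_, ?_⟩
  · apply Nat.Coprime.prod_left
    intro i hi
    exact (Finset.mem_filter.mp hi).2
  · apply Finset.prod_pos
    intro i hi
    have := (Finset.mem_filter.mp hi).1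
    exact Nat.pos_of_mem_divisors this
  · intro m hm
    apply Finset.dvd_prod_of_mem
    rw [Finset.mem_filter]
    refine ⟨?_, ?_⟩
    · rw [Nat.mem_divisors]
      exact ⟨Nat.gcd_dvd_left _ _, hM⟩
    · exact Nat.Coprime.coprime_dvd_left (Nat.gcd_dvd_right _ _) hm

/-- The good configurations. -/
def Good (a1 a2 : ℕ) (k : ℕ) (x : ℕ → ℤ) : Prop :=
  (∀ i, i < k → 0 < x i) ∧
  ∀ i j, i < j → j < k → x i < x j ∧ (a1 : ℤ) * (x j - x i) ∣ x i ∧ (a2 : ℤ) * (x j - x i) ∣ x j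

lemma good_succ (a1 a2 : ℕ) (h1 : 0 < a1) (h2 : 0 < a2) (hc : Nat.Coprime a1 a2) (k : ℕ)
    (x0 : ℕ → ℤ) (hx0 : Good a1 a2 k x0) : ∃ y : ℕ → ℤ, Good a1 a2 (k+1) y := by
  -- scale
  set x : ℕ → ℤ := fun i => (a1 : ℤ) * x0 i with hxdef
  have ha1 : (0:ℤ) < a1 := by exact_mod_cast h1
  have ha2 : (0:ℤ) < a2 := by exact_mod_cast h2
  have hx : Good a1 a2 k x := by
    refine ⟨fun i hi => mul_pos ha1 (hx0.1 i hi), fun i j hij hj => ?_⟩
    obtain ⟨h3, h4, h5⟩ := hx0.2 i j hij hj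
    refine ⟨mul_lt_mul_of_pos_left h3 ha1, ?_, ?_⟩
    · have : (a1:ℤ) * (x j - x i) = a1 * (a1 * (x0 j - x0 i)) := by simp only [hxdef]; ring
      rw [this]; exact mul_dvd_mul_left _ h4
    · have : (a2:ℤ) * (x j - x i) = a1 * (a2 * (x0 j - x0 i)) := by simp only [hxdef]; ring
      rw [this]; exact mul_dvd_mul_left _ h5
  -- the modulus M
  set Mz : ℤ := (a1:ℤ) * a2 * ∏ p ∈ (Finset.range k ×ˢ Finset.range k).filter (fun p => p.1 < p.2),
      (x p.2 - x p.1) with hMz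
  have hMpos : 0 < Mz := by
    apply mul_pos (mul_pos ha1 ha2)
    apply Finset.prod_pos
    intro p hp
    rw [Finset.mem_filter, Finset.mem_product, Finset.mem_range, Finset.mem_range] at hp
    have := (hx.2 p.1 p.2 hp.2 hp.1.2).1
    linarith
  obtain ⟨M2, hM2c, hM2pos, hM2⟩ := exists_cop_part Mz.toNat a1 (by
    intro h; rw [Int.toNat_eq_zero] at h; linarith)
  -- a bound for the x's
  obtain ⟨B, hB⟩ : ∃ B : ℕ, ∀ i, i < k → x i < (B:ℤ) := by
    refine ⟨(∑ i ∈ Finset.range k, x i).toNat + 1, fun i hi => ?_⟩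
    have h : x i ≤ ∑ i ∈ Finset.range k, x i :=
      Finset.single_le_sum (f := x) (fun j hj => (hx.1 j (Finset.mem_range.mp hj)).le) (Finset.mem_range.mpr hi)
    push_cast
    have := Int.self_le_toNat (∑ i ∈ Finset.range k, x i)
    linarith
  -- choice of w
  obtain ⟨w, hwB, hwM2, hwa1⟩ : ∃ w : ℕ, B < w ∧ M2 ∣ w ∧ Nat.Coprime w a1 := by
    obtain ⟨w0, hw0a, hw0b⟩ := Nat.chineseRemainder hM2c 0 1
    refine ⟨w0 + M2 * a1 * (B+1), ?_, ?_, ?_⟩
    · have : 1 ≤ M2 * a1 := Nat.mul_pos hM2pos h1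
      nlinarith
    · apply Dvd.dvd.add
      · exact (Nat.modEq_zero_iff_dvd).mp hw0a
      · exact (Dvd.intro _ rfl : M2 ∣ M2 * (a1 * (B+1))).trans (by rw [mul_assoc])
    · have h3 : w0 + M2 * a1 * (B+1) ≡ 1 [MOD a1] := by
        have : M2 * a1 * (B+1) ≡ 0 [MOD a1] := by
          rw [Nat.modEq_zero_iff_dvd]; exact Dvd.intro_left (M2) rfl |>.mul_right _
        simpa using hw0b.add this
      have := h3.gcd_eq
      rw [Nat.Coprime, this]; simp
  have hwa1' : IsCoprime (w:ℤ) (a1:ℤ) := Nat.isCoprime_iff_coprime.mpr hwa1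
  -- Lambda
  set Lz : ℤ := ∏ i ∈ Finset.range k, ((a2:ℤ) * (w - x i)) with hLz
  have hLpos : 0 < Lz := by
    apply Finset.prod_pos
    intro i hi
    apply mul_pos ha2
    have := hB i (Finset.mem_range.mp hi)
    have h' : (B:ℤ) < w := by exact_mod_cast hwB
    linarith
  have hwx : ∀ i, IsCoprime ((w:ℤ) - x i) (a1:ℤ) := by
    intro i
    have : (w:ℤ) - x i = w + (-(x0 i)) * a1 := by simp only [hxdef]; ring
    rw [this]
    exact IsCoprime.add_mul_right_left hwa1' _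
  have hLc : IsCoprime Lz (a1:ℤ) := by
    apply IsCoprime.prod_left
    intro i hi
    exact IsCoprime.mul_left (Nat.isCoprime_iff_coprime.mpr hc).symm (hwx i)
  -- Bezout
  obtain ⟨N, hN0, hMN, hLN⟩ : ∃ N : ℤ, 0 < N ∧ Mz ∣ N ∧ Lz ∣ N + w := by
    have hg : Int.gcd Mz Lz ∣ w := by
      have h3 := hM2 Lz.toNat (by
        have : IsCoprime ((Lz.toNat : ℕ) : ℤ) (a1:ℤ) := by rw [Int.toNat_of_nonneg hLpos.le]; exact hLc
        exact Nat.isCoprime_iff_coprime.mp this)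
      have h4 : Int.gcd Mz Lz = Nat.gcd Mz.toNat Lz.toNat := by
        rw [Int.gcd_def]
        congr 1
        · have := Int.natAbs_of_nonneg hMpos.le; omega
        · have := Int.natAbs_of_nonneg hLpos.le; omega
      rw [h4]; exact h3.trans hwM2
    obtain ⟨c, hc'⟩ := hg
    have hbez := Int.gcd_eq_gcd_ab Mz Lz
    -- N0 = - c * gcdA * Mz
    refine ⟨Mz * (-(c:ℤ) * Int.gcdA Mz Lz) + Mz * Lz * (|(-(c:ℤ) * Int.gcdA Mz Lz)| + 1), ?_, ?_, ?_⟩
    · have h5 : 1 ≤ Lz := hLpos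
      have h6 := neg_abs_le (-(c:ℤ) * Int.gcdA Mz Lz)
      have h7 := abs_nonneg (-(c:ℤ) * Int.gcdA Mz Lz)
      have h8 : Mz * (-(c:ℤ) * Int.gcdA Mz Lz) + Mz * Lz * (|(-(c:ℤ) * Int.gcdA Mz Lz)| + 1)
        = Mz * ((-(c:ℤ) * Int.gcdA Mz Lz) + Lz * (|(-(c:ℤ) * Int.gcdA Mz Lz)| + 1)) := by ring
      rw [h8]
      apply mul_pos hMpos
      nlinarith
    · apply dvd_add
      · exact Dvd.intro _ rfl
      · exact Dvd.intro (Lz * (|(-(c:ℤ) * Int.gcdA Mz Lz)| + 1)) (by ring)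
    · have h9 : (w:ℤ) = (Int.gcd Mz Lz : ℤ) * c := by rw [hc']; push_cast; ring
      rw [hbez] at h9
      refine ⟨c * Int.gcdB Mz Lz + Mz * (|(-(c:ℤ) * Int.gcdA Mz Lz)| + 1), ?_⟩
      rw [h9]; ring
  -- the new configuration
  have hMa1 : (a1:ℤ) ∣ N := by
    refine Dvd.dvd.trans ?_ hMN
    rw [hMz, mul_assoc]
    exact Dvd.intro _ rfl
  have hpair : ∀ i j, i < j → j < k → (a1:ℤ) * a2 * (x j - x i) ∣ N := by
    intro i j hij hj
    refine Dvd.dvd.trans ?_ hMN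
    rw [hMz]
    apply mul_dvd_mul_left
    exact Finset.dvd_prod_of_mem (fun p : ℕ × ℕ => x p.2 - x p.1) (a := (i,j)) (by
      rw [Finset.mem_filter, Finset.mem_product, Finset.mem_range, Finset.mem_range]
      exact ⟨⟨hij.trans hj, hj⟩, hij⟩)
  refine ⟨fun i => if i < k then N + x i else N + w, ?_, ?_⟩
  · intro i hi
    dsimp only
    split_ifs with h
    · have := hx.1 i h; linarith
    · have : (0:ℤ) ≤ w := by positivity
      linarith
  · intro i j hij hj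
    have hik : i < k := by omega
    dsimp only
    rw [if_pos hik]
    by_cases hjk : j < k
    · rw [if_pos hjk]
      obtain ⟨h3, h4, h5⟩ := hx.2 i j hij hjk
      have h6 := hpair i j hij hjk
      have e : N + x j - (N + x i) = x j - x i := by ring
      rw [e]
      refine ⟨by linarith, ?_, ?_⟩
      · apply dvd_add _ h4
        exact (Dvd.intro (a2:ℤ) (by ring)).trans h6
      · apply dvd_add _ h5
        exact (Dvd.intro (a1:ℤ) (by ring)).trans h6
    · rw [if_neg hjk]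
      have e : N + w - (N + x i) = w - x i := by ring
      rw [e]
      have h3 : (a2:ℤ) * (w - x i) ∣ Lz := Finset.dvd_prod_of_mem (fun i => (a2:ℤ) * (w - x i)) (Finset.mem_range.mpr hik)
      have hlt := hB i hik
      have h' : (B:ℤ) < w := by exact_mod_cast hwB
      refine ⟨by linarith, ?_, h3.trans hLN⟩
      have h4 : ((w:ℤ) - x i) ∣ N + x i := by
        have h5 : ((w:ℤ) - x i) ∣ N + w := (Dvd.intro_left (a2:ℤ) rfl).trans (h3.trans hLN)
        have h6 : N + x i = (N + w) - (w - x i) := by ring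
        rw [h6]
        exact dvd_sub h5 (dvd_refl _)
      have h7 : (a1:ℤ) ∣ N + x i := dvd_add hMa1 (Dvd.intro _ rfl)
      exact (hwx i).symm.mul_dvd h7 h4

lemma good_exists (a1 a2 : ℕ) (h1 : 0 < a1) (h2 : 0 < a2) (hc : Nat.Coprime a1 a2) (k : ℕ) :
    ∃ y : ℕ → ℤ, Good a1 a2 k y := by
  induction k with
  | zero => exact ⟨fun _ => 1, ⟨fun i hi => by norm_num, fun i j hij hj => by omega⟩⟩
  | succ k ih =>
    obtain ⟨x, hx⟩ := ih
    exact good_succ a1 a2 h1 h2 hc k x hx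

/-- good configurations with large elements compared with the differences -/
lemma good_large (a1 a2 : ℕ) (h1 : 0 < a1) (h2 : 0 < a2) (hc : Nat.Coprime a1 a2) (k : ℕ) (C : ℤ) :
    ∃ y : ℕ → ℤ, Good a1 a2 k y ∧ ∀ i j, i < j → j < k → C * (y j - y i) ≤ y i := by
  obtain ⟨x, hx⟩ := good_exists a1 a2 h1 h2 hc k
  have ha1 : (0:ℤ) < a1 := by exact_mod_cast h1
  have ha2 : (0:ℤ) < a2 := by exact_mod_cast h2
  set S := (Finset.range k ×ˢ Finset.range k).filter (fun p => p.1 < p.2) with hS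
  set P : ℤ := ∏ p ∈ S, (x p.2 - x p.1) with hP
  have hpos : ∀ p ∈ S, 1 ≤ x p.2 - x p.1 := by
    intro p hp
    rw [hS, Finset.mem_filter, Finset.mem_product, Finset.mem_range, Finset.mem_range] at hp
    have := (hx.2 p.1 p.2 hp.2 hp.1.2).1
    linarith
  have hPpos : 0 < P := Finset.prod_pos (fun p hp => by have := hpos p hp; linarith)
  set N : ℤ := (a1:ℤ) * a2 * P * (|C| + 1) * ∑ p ∈ S, (x p.2 - x p.1) with hN
  have hsum : 0 ≤ ∑ p ∈ S, (x p.2 - x p.1) := Finset.sum_nonneg (fun p hp => by have := hpos p hp; linarith)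
  have hN0 : 0 ≤ N := by
    apply mul_nonneg _ hsum
    have := abs_nonneg C
    positivity
  refine ⟨fun i => N + x i, ⟨fun i hi => by have := hx.1 i hi; linarith, fun i j hij hj => ?_⟩, fun i j hij hj => ?_⟩
  · obtain ⟨h3, h4, h5⟩ := hx.2 i j hij hj
    have e : N + x j - (N + x i) = x j - x i := by ring
    have hmem : (i,j) ∈ S := by
      rw [hS, Finset.mem_filter, Finset.mem_product, Finset.mem_range, Finset.mem_range]
      exact ⟨⟨hij.trans hj, hj⟩, hij⟩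
    have h6 : (a1:ℤ) * a2 * (x j - x i) ∣ N := by
      have : (x j - x i) ∣ P := Finset.dvd_prod_of_mem (fun p : ℕ × ℕ => x p.2 - x p.1) hmem
      rw [hN]
      exact ((mul_dvd_mul_left ((a1:ℤ) * a2) this).mul_right _).mul_right _
    dsimp only
    rw [e]
    refine ⟨by linarith, ?_, ?_⟩
    · apply dvd_add _ h4
      exact (Dvd.intro (a2:ℤ) (by ring)).trans h6
    · apply dvd_add _ h5
      exact (Dvd.intro (a1:ℤ) (by ring)).trans h6
  · have hmem : (i,j) ∈ S := by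
      rw [hS, Finset.mem_filter, Finset.mem_product, Finset.mem_range, Finset.mem_range]
      exact ⟨⟨hij.trans hj, hj⟩, hij⟩
    dsimp only
    have e : N + x j - (N + x i) = x j - x i := by ring
    rw [e]
    have h7 : x j - x i ≤ ∑ p ∈ S, (x p.2 - x p.1) :=
      Finset.single_le_sum (f := fun p : ℕ × ℕ => x p.2 - x p.1) (fun p hp => by have := hpos p hp; linarith) hmem
    have h8 : (|C| + 1) * (x j - x i) ≤ N := by
      have hC := abs_nonneg C
      have h9 : (1:ℤ) ≤ (a1:ℤ) * a2 * P := by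
        have : 0 < (a1:ℤ) * a2 * P := by positivity
        linarith
      have h10 : 0 ≤ x j - x i := by have := hpos _ hmem; dsimp only at this; linarith
      calc (|C| + 1) * (x j - x i) ≤ (|C| + 1) * ∑ p ∈ S, (x p.2 - x p.1) := by
            apply mul_le_mul_of_nonneg_left h7; linarith
        _ ≤ ((a1:ℤ) * a2 * P) * ((|C| + 1) * ∑ p ∈ S, (x p.2 - x p.1)) := by
            have h11 : 0 ≤ (|C| + 1) * ∑ p ∈ S, (x p.2 - x p.1) := by positivity
            nlinarith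
        _ = N := by rw [hN]; ring
    have h12 : C * (x j - x i) ≤ (|C| + 1) * (x j - x i) := by
      apply mul_le_mul_of_nonneg_right
      · have := le_abs_self C; linarith
      · have := hpos _ hmem; dsimp only at this; linarith
    have := hx.1 i (hij.trans hj)
    linarith

/-- number theoretic core -/
lemma ratio_config (a : ℕ) (b d : ℤ) (ha : 0 < a)
    (hg : ∀ k : ℤ, k ∣ (a : ℤ) → k ∣ b → k ∣ d → IsUnit k)
    (hbd : (a : ℤ) ∣ b * d) (hlt : d < b) (k : ℕ) :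
    ∃ x : ℕ → ℤ, (∀ i, i < k → 0 < x i) ∧ ∀ i j, i < j → j < k →
      ∃ n : ℕ, 0 < n ∧ 0 < (a : ℤ) * n + b ∧ 0 < (a : ℤ) * n + d ∧
        ((a : ℤ) * n + b) * x i = ((a : ℤ) * n + d) * x j := by
  set a1 : ℕ := Int.gcd a d with ha1
  set a2 : ℕ := Int.gcd a b with ha2
  have h1 : 0 < a1 := Int.gcd_pos_of_ne_zero_left _ (by positivity)
  have h2 : 0 < a2 := Int.gcd_pos_of_ne_zero_left _ (by positivity)
  have hd1 : (a1:ℤ) ∣ d := Int.gcd_dvd_right _ _
  have hd2 : (a2:ℤ) ∣ b := Int.gcd_dvd_right _ _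
  have hda1 : (a1:ℤ) ∣ a := Int.gcd_dvd_left _ _
  have hda2 : (a2:ℤ) ∣ a := Int.gcd_dvd_left _ _
  have hc : Nat.Coprime a1 a2 := by
    have h3 : ((Nat.gcd a1 a2 : ℕ) : ℤ) ∣ a := (Int.natCast_dvd_natCast.mpr (Nat.gcd_dvd_left a1 a2)).trans hda1
    have h4 : ((Nat.gcd a1 a2 : ℕ) : ℤ) ∣ b := (Int.natCast_dvd_natCast.mpr (Nat.gcd_dvd_right a1 a2)).trans hd2
    have h5 : ((Nat.gcd a1 a2 : ℕ) : ℤ) ∣ d := (Int.natCast_dvd_natCast.mpr (Nat.gcd_dvd_left a1 a2)).trans hd1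
    have := hg _ h3 h4 h5
    rw [Int.isUnit_iff_natAbs_eq, Int.natAbs_natCast] at this
    exact this
  have hprod : (a:ℤ) ∣ (a1:ℤ) * a2 := by
    have h3 : a ∣ a1 * a2 := by
      have h4 : a ∣ Nat.gcd a (b.natAbs * d.natAbs) := by
        apply Nat.dvd_gcd (dvd_refl a)
        have := Int.natAbs_dvd_natAbs.mpr hbd
        rwa [Int.natAbs_mul, Int.natAbs_natCast] at this
      have h5 := Nat.gcd_mul_right_dvd_mul_gcd a b.natAbs d.natAbs
      have h6 : a1 = Nat.gcd a d.natAbs := by rw [ha1, Int.gcd_def, Int.natAbs_natCast]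
      have h7 : a2 = Nat.gcd a b.natAbs := by rw [ha2, Int.gcd_def, Int.natAbs_natCast]
      rw [h6, h7, mul_comm]
      exact h4.trans h5
    exact_mod_cast h3
  set D : ℤ := b - d with hD
  have hDpos : 0 < D := by rw [hD]; linarith
  obtain ⟨x, hx, hxl⟩ := good_large a1 a2 h1 h2 hc k (|(a:ℤ) + d| + 1)
  refine ⟨x, hx.1, fun i j hij hj => ?_⟩
  obtain ⟨h3, h4, h5⟩ := hx.2 i j hij hj
  have h6 := hxl i j hij hj
  have hg0 : 0 < x j - x i := by linarith
  obtain ⟨s, hs⟩ := h4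
  obtain ⟨t, ht⟩ := h5
  -- x i = a1 (xj - xi) s, x j = a2 (xj - xi) t
  have hst : (a1:ℤ) * s + 1 = a2 * t := by
    have : (x j - x i) * ((a1:ℤ) * s + 1) = (x j - x i) * (a2 * t) := by linarith [hs, ht]
    exact mul_left_cancel₀ hg0.ne' this
  set u : ℤ := D * (a1 * s) with hu
  have hu1 : (a1:ℤ) ∣ u - d := by
    apply dvd_sub _ hd1
    exact ⟨D * s, by rw [hu]; ring⟩
  have hu2 : (a2:ℤ) ∣ u - d := by
    have : u - d = D * (a2 * t) - b := by rw [← hst, hu, hD]; ring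
    rw [this]
    apply dvd_sub _ hd2
    exact ⟨D * t, by ring⟩
  have hua : (a:ℤ) ∣ u - d := hprod.trans ((Nat.isCoprime_iff_coprime.mpr hc).mul_dvd hu1 hu2)
  obtain ⟨n, hn⟩ := hua
  have ha' : (0:ℤ) < a := by exact_mod_cast ha
  have hul : |(a:ℤ) + d| + 1 ≤ u := by
    have h7 : |(a:ℤ) + d| + 1 ≤ a1 * s := by
      have : (|(a:ℤ) + d| + 1) * (x j - x i) ≤ (a1 * s) * (x j - x i) := by
        calc (|(a:ℤ) + d| + 1) * (x j - x i) ≤ x i := h6
          _ = a1 * (x j - x i) * s := hs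
          _ = (a1 * s) * (x j - x i) := by ring
      exact le_of_mul_le_mul_right this hg0
    have h8 : 0 ≤ |(a:ℤ) + d| := abs_nonneg _
    have h9 : 0 ≤ (a1:ℤ) * s := by linarith
    rw [hu]
    nlinarith
  have hn0 : 0 < n := by
    have h10 : (a:ℤ) + d ≤ |(a:ℤ) + d| := le_abs_self _
    have h11 : 0 < (a:ℤ) * n := by linarith
    exact (mul_pos_iff_of_pos_left ha').mp h11
  obtain ⟨m, rfl⟩ : ∃ m : ℕ, n = m := ⟨n.toNat, by rw [Int.toNat_of_nonneg hn0.le]⟩
  have h12 : (a:ℤ) * m + d = u := by linarith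
  have h13 : (a:ℤ) * m + b = u + D := by rw [hD]; linarith
  have hupos : 0 < u := by have := abs_nonneg ((a:ℤ) + d); linarith
  refine ⟨m, by exact_mod_cast hn0, by rw [h13]; linarith, by rw [h12]; linarith, ?_⟩
  rw [h12, h13]
  have h14 : u + D = D * (a2 * t) := by rw [← hst, hu]; ring
  rw [h14, hu]
  calc D * (a2 * t) * x i = D * (a2 * t) * (a1 * (x j - x i) * s) := by rw [← hs]
    _ = D * (a1 * s) * (a2 * (x j - x i) * t) := by ring
    _ = D * (a1 * s) * x j := by rw [← ht]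

end Y864.Rec
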